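import Mathlib

set_option autoImplicit false

namespace Pool.Agent.F2CF

open Finset

/-- the point `x` avoids all objects of level at most `n` -/
def Av {ι : Type} (ρ : ℝ) (F : ℕ → ℕ → ι → Set ℝ) (n : ℕ) (x : ℝ) : Prop :=
  ∀ m, m ≤ n → ∀ n' t, ∀ c ∈ F m n' t, ρ ^ (-(m : ℤ)) ≤ |x - c|

structure Nice {ι : Type} (ρ : ℝ) (F : ℕ → ℕ → ι → Set ℝ) : Prop where
  lt : ∀ m n t c, c ∈ F m n t → n < m
  uniq : ∀ m n t x c1 c2, Av ρ F n x → c1 ∈ F m n t → c2 ∈ F m n t →
    |x - c1| ≤ 2 * ρ ^ (-(n : ℤ)) → |x - c2| ≤ 2 * ρ ^ (-(n : ℤ)) → c1 = c2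

def sumF {ι κ : Type} (F : ℕ → ℕ → ι → Set ℝ) (G : ℕ → ℕ → κ → Set ℝ) :
    ℕ → ℕ → ι ⊕ κ → Set ℝ :=
  fun m n t => Sum.elim (F m n) (G m n) t

theorem Nice.sum {ι κ : Type} {ρ : ℝ} {F : ℕ → ℕ → ι → Set ℝ} {G : ℕ → ℕ → κ → Set ℝ}
    (hF : Nice ρ F) (hG : Nice ρ G) : Nice ρ (sumF F G) := by
  constructor
  · intro m n t c hc
    cases t with
    | inl t => exact hF.lt m n t c hc
    | inr t => exact hG.lt m n t c hc
  · intro m n t x c1 c2 hav h1 h2 d1 d2
    cases t with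
    | inl t =>
      exact hF.uniq m n t x c1 c2 (fun m' hm n' t' c hc => hav m' hm n' (Sum.inl t') c hc) h1 h2 d1 d2
    | inr t =>
      exact hG.uniq m n t x c1 c2 (fun m' hm n' t' c hc => hav m' hm n' (Sum.inr t') c hc) h1 h2 d1 d2

section Cantor
variable {ι : Type} (R : ℕ) (F : ℕ → ℕ → ι → Set ℝ)

def lvl (m i : ℕ) : Prop := ∀ n' t, ∀ c ∈ F m n' t, 2 ≤ |(i : ℝ) - c * (R : ℝ) ^ m|

open Classical in
noncomputable def J : ℕ → Finset ℕ
  | 0 => {0}
  | n + 1 => (range (R ^ (n + 1))).filter (fun i => i / R ∈ J n ∧ lvl R F (n + 1) i)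

theorem J_lt (n i : ℕ) (h : i ∈ J R F n) : i < R ^ n := by
  cases n with
  | zero => simp [J] at h; simp [h]
  | succ n => simp only [J, mem_filter, mem_range] at h; exact h.1

theorem J_anc (n k i : ℕ) (h : i ∈ J R F (n + k)) : i / R ^ k ∈ J R F n := by
  induction k generalizing i with
  | zero => simpa using h
  | succ k ih =>
    have h' : i ∈ J R F ((n + k) + 1) := h
    simp only [J, mem_filter] at h'
    have := ih _ h'.2.1
    rwa [Nat.div_div_eq_div_mul, ← pow_succ'] at this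

theorem near (hR : 2 ≤ R) (n k i : ℕ) :
    |(i : ℝ) / (R : ℝ) ^ (n + k) - ((i / R ^ k : ℕ) : ℝ) / (R : ℝ) ^ n| ≤ (R : ℝ) ^ (-(n : ℤ)) := by
  have hR0 : (0 : ℝ) < R := by exact_mod_cast (by omega : 0 < R)
  have hk : 0 < R ^ k := pow_pos (by omega) k
  have h1 : (i : ℝ) = (R : ℝ) ^ k * ((i / R ^ k : ℕ) : ℝ) + ((i % R ^ k : ℕ) : ℝ) := by
    exact_mod_cast (Nat.div_add_mod i (R ^ k)).symm
  have h2 : ((i % R ^ k : ℕ) : ℝ) ≤ (R : ℝ) ^ k := by exact_mod_cast (Nat.mod_lt i hk).le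
  have h3 : (i : ℝ) / (R : ℝ) ^ (n + k) - ((i / R ^ k : ℕ) : ℝ) / (R : ℝ) ^ n
      = ((i % R ^ k : ℕ) : ℝ) / (R : ℝ) ^ (n + k) := by
    conv_lhs => rw [h1]
    field_simp
    ring
  rw [h3, abs_of_nonneg (by positivity), zpow_neg, zpow_natCast, div_le_iff₀ (by positivity), pow_add]
  calc _ ≤ (R : ℝ) ^ k := h2
    _ = _ := by field_simp

theorem J_av (hR : 2 ≤ R) (hF : Nice (R : ℝ) F) (n i : ℕ) (h : i ∈ J R F n) :
    Av (R : ℝ) F n ((i : ℝ) / (R : ℝ) ^ n) := by
  intro m hm n' t c hc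
  obtain ⟨k, rfl⟩ := Nat.exists_eq_add_of_le hm
  have hR0 : (0 : ℝ) < R := by exact_mod_cast (by omega : 0 < R)
  have ha := J_anc R F m k i h
  have hlt := hF.lt _ _ _ _ hc
  obtain ⟨m, rfl⟩ : ∃ m', m = m' + 1 := ⟨m - 1, by omega⟩
  simp only [J, mem_filter] at ha
  have h1 := ha.2.2 n' t c hc
  have h2 := near R hR (m + 1) k i
  set a : ℝ := ((i / R ^ k : ℕ) : ℝ)
  have hp : (0 : ℝ) < (R : ℝ) ^ (m + 1) := by positivity
  have h3 : |a / (R : ℝ) ^ (m + 1) - c| = |a - c * (R : ℝ) ^ (m + 1)| / (R : ℝ) ^ (m + 1) := by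
    rw [← abs_of_pos hp, ← abs_div, abs_of_pos hp]; congr 1; field_simp
  have h4 : 2 * (R : ℝ) ^ (-((m + 1 : ℕ) : ℤ)) ≤ |a / (R : ℝ) ^ (m + 1) - c| := by
    rw [h3, zpow_neg, zpow_natCast, le_div_iff₀ hp]
    calc _ = 2 := by field_simp
      _ ≤ _ := h1
  have h5 := abs_sub_le (a / (R : ℝ) ^ (m + 1)) ((i : ℝ) / (R : ℝ) ^ (m + 1 + k)) c
  rw [abs_sub_comm (a / _) ((i : ℝ) / _)] at h5
  linarith

open Classical in
noncomputable def S (m n : ℕ) (t : ι) (a : ℕ) : Finset ℕ :=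
  (range (R ^ m)).filter (fun i => i / R ^ (m - n) = a ∧
    ∃ c ∈ F m n t, |(i : ℝ) - c * (R : ℝ) ^ m| < 2)

theorem S_card (hR : 2 ≤ R) (hF : Nice (R : ℝ) F) (m n : ℕ) (t : ι) (a : ℕ) (ha : a ∈ J R F n) :
    (S R F m n t a).card ≤ 4 := by
  have hR0 : (0 : ℝ) < R := by exact_mod_cast (by omega : 0 < R)
  have hR2 : (2 : ℝ) ≤ R := by exact_mod_cast hR
  have key : ∀ i ∈ S R F m n t a, ∀ c ∈ F m n t, |(i : ℝ) - c * (R : ℝ) ^ m| < 2 →
      |(a : ℝ) / (R : ℝ) ^ n - c| ≤ 2 * (R : ℝ) ^ (-(n : ℤ)) := by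
    intro i hi c hc hic
    have hlt := hF.lt _ _ _ _ hc
    obtain ⟨k, rfl⟩ := Nat.exists_eq_add_of_lt hlt
    simp only [S, mem_filter] at hi
    have e : n + k + 1 - n = k + 1 := by omega
    rw [e] at hi
    have h2 := near R hR n (k + 1) i
    rw [hi.2.1] at h2
    have hp : (0 : ℝ) < (R : ℝ) ^ (n + k + 1) := by positivity
    have h3 : |(i : ℝ) / (R : ℝ) ^ (n + k + 1) - c|
        = |(i : ℝ) - c * (R : ℝ) ^ (n + k + 1)| / (R : ℝ) ^ (n + k + 1) := by
      rw [← abs_of_pos hp, ← abs_div, abs_of_pos hp]; congr 1; field_simp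
    have h4 : |(i : ℝ) / (R : ℝ) ^ (n + k + 1) - c| ≤ (R : ℝ) ^ (-(n : ℤ)) := by
      rw [h3, zpow_neg, zpow_natCast, div_le_iff₀ hp]
      have : (1 : ℝ) ≤ (R : ℝ) ^ k := one_le_pow₀ (by linarith)
      calc _ ≤ 2 := hic.le
        _ ≤ (R : ℝ) ^ k * R := by nlinarith
        _ = _ := by field_simp; ring
    have h5 := abs_sub_le ((a : ℝ) / (R : ℝ) ^ n) ((i : ℝ) / (R : ℝ) ^ (n + k + 1)) c
    rw [abs_sub_comm ((a : ℝ) / _) ((i : ℝ) / _)] at h5
    have h2' : |(i : ℝ) / (R : ℝ) ^ (n + k + 1) - (a : ℝ) / (R : ℝ) ^ n| ≤ (R : ℝ) ^ (-(n : ℤ)) := h2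
    linarith
  rcases (S R F m n t a).eq_empty_or_nonempty with he | hne
  · simp [he]
  · set i0 := (S R F m n t a).min' hne
    have h0 : i0 ∈ S R F m n t a := min'_mem _ _
    have hsub : S R F m n t a ⊆ Icc i0 (i0 + 3) := by
      intro i hi
      have hle : i0 ≤ i := min'_le _ _ hi
      have hi' := hi
      have h0' := h0
      simp only [S, mem_filter] at hi' h0'
      obtain ⟨c, hc, hic⟩ := hi'.2.2
      obtain ⟨c0, hc0, hic0⟩ := h0'.2.2
      have := hF.uniq m n t _ c c0 (J_av R F hR hF n a ha) hc hc0 (key i hi c hc hic) (key i0 h0 c0 hc0 hic0)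
      subst this
      have a1 := abs_lt.1 hic
      have a2 := abs_lt.1 hic0
      have : (i : ℝ) < (i0 : ℝ) + 4 := by linarith
      have : i < i0 + 4 := by exact_mod_cast this
      simp only [mem_Icc]; omega
    calc _ ≤ (Icc i0 (i0 + 3)).card := card_le_card hsub
      _ = 4 := by rw [Nat.card_Icc]; omega

theorem J_step [Fintype ι] (hR : 2 ≤ R) (hF : Nice (R : ℝ) F) (n : ℕ) :
    R * (J R F n).card ≤ (J R F (n + 1)).card +
      4 * Fintype.card ι * ∑ k ∈ range (n + 1), (J R F k).card := by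
  classical
  set C : Finset ℕ := ((J R F n) ×ˢ range R).image (fun p => R * p.1 + p.2) with hC
  have hCcard : C.card = R * (J R F n).card := by
    rw [hC, card_image_of_injOn, card_product, card_range, mul_comm]
    rintro ⟨a, b⟩ hab ⟨a', b'⟩ hab' h
    simp only [coe_product, Set.mem_prod, mem_coe, mem_range, coe_range, Set.mem_Iio] at hab hab'
    simp only at h
    have h1 : (R * a + b) / R = a := by
      rw [Nat.mul_add_div (by omega), Nat.div_eq_of_lt hab.2]; simp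
    have h2 : (R * a' + b') / R = a' := by
      rw [Nat.mul_add_div (by omega), Nat.div_eq_of_lt hab'.2]; simp
    have : a = a' := by rw [← h1, ← h2, h]
    subst this
    simp only [Prod.mk.injEq, true_and]; omega
  set B : Finset ℕ := (range (n + 1)).biUnion (fun k => (univ : Finset ι).biUnion
    (fun t => (J R F k).biUnion (fun a => S R F (n + 1) k t a))) with hB
  have hBcard : B.card ≤ 4 * Fintype.card ι * ∑ k ∈ range (n + 1), (J R F k).card := by
    rw [mul_sum]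
    refine card_biUnion_le.trans (sum_le_sum fun k _ => ?_)
    refine card_biUnion_le.trans ?_
    calc _ ≤ ∑ _t : ι, 4 * (J R F k).card := by
          refine sum_le_sum fun t _ => card_biUnion_le.trans ?_
          calc _ ≤ ∑ _a ∈ J R F k, 4 := sum_le_sum fun a ha => S_card R F hR hF _ _ t a ha
            _ = _ := by simp [mul_comm]
      _ = _ := by simp; ring
  have hsub : C ⊆ J R F (n + 1) ∪ B := by
    intro i hi
    simp only [hC, mem_image, mem_product, mem_range] at hi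
    obtain ⟨⟨a, b⟩, ⟨ha, hb⟩, rfl⟩ := hi
    simp only at ha hb ⊢
    have h1 : (R * a + b) / R = a := by
      rw [Nat.mul_add_div (by omega), Nat.div_eq_of_lt hb]; simp
    have hlt : R * a + b < R ^ (n + 1) := by
      have := J_lt R F n a ha
      calc R * a + b < R * a + R := by omega
        _ = R * (a + 1) := by ring
        _ ≤ R * R ^ n := Nat.mul_le_mul_left _ this
        _ = _ := by ring
    by_cases hl : lvl R F (n + 1) (R * a + b)
    · apply mem_union_left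
      simp only [J, mem_filter, mem_range]
      exact ⟨hlt, by rw [h1]; exact ha, hl⟩
    · apply mem_union_right
      simp only [lvl, not_forall, not_le] at hl
      obtain ⟨k, t, c, hc, hic⟩ := hl
      have hk := hF.lt _ _ _ _ hc
      obtain ⟨d, rfl⟩ : ∃ d, n = k + d := ⟨n - k, by omega⟩
      simp only [hB, mem_biUnion, mem_range, mem_univ, true_and]
      refine ⟨k, hk, t, a / R ^ d, J_anc R F k d a ha, ?_⟩
      simp only [S, mem_filter, mem_range]
      refine ⟨hlt, ?_, c, hc, hic⟩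
      have e : k + d + 1 - k = d + 1 := by omega
      rw [e, pow_succ', ← Nat.div_div_eq_div_mul, h1]
  calc _ = C.card := hCcard.symm
    _ ≤ (J R F (n + 1) ∪ B).card := card_le_card hsub
    _ ≤ (J R F (n + 1)).card + B.card := card_union_le _ _
    _ ≤ _ := by omega

theorem J_inv [Fintype ι] (hR : 8 * Fintype.card ι + 2 ≤ R) (hF : Nice (R : ℝ) F) (n : ℕ) :
    0 < (J R F n).card ∧ ∑ k ∈ range (n + 1), (J R F k).card ≤ 2 * (J R F n).card := by
  induction n with
  | zero => simp [J]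
  | succ n ih =>
    have h := J_step R F (by omega) hF n
    have h1 : 4 * Fintype.card ι * ∑ k ∈ range (n + 1), (J R F k).card
        ≤ 8 * Fintype.card ι * (J R F n).card := by
      calc _ ≤ 4 * Fintype.card ι * (2 * (J R F n).card) := Nat.mul_le_mul_left _ ih.2
        _ = _ := by ring
    have h2 : (8 * Fintype.card ι + 2) * (J R F n).card ≤ R * (J R F n).card :=
      Nat.mul_le_mul_right _ hR
    have h3 : 2 * (J R F n).card ≤ (J R F (n + 1)).card := by nlinarith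
    rw [sum_range_succ]
    omega

theorem cantor [Fintype ι] (hR : 8 * Fintype.card ι + 2 ≤ R) (hF : Nice (R : ℝ) F) :
    ∃ x : ℝ, ∀ m n t, ∀ c ∈ F m n t, (R : ℝ) ^ (-(m : ℤ)) ≤ |x - c| := by
  have hR0 : (0 : ℝ) < R := by exact_mod_cast (by omega : 0 < R)
  let K : ℕ → Set ℝ := fun n => Set.Icc 0 1 ∩ {x | Av (R : ℝ) F n x}
  have hcl : ∀ n, IsClosed (K n) := by
    intro n
    refine isClosed_Icc.inter ?_
    simp only [Av, Set.setOf_forall]
    refine isClosed_iInter fun m => isClosed_iInter fun _ => isClosed_iInter fun n' =>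
      isClosed_iInter fun t => isClosed_iInter fun c => isClosed_iInter fun _ => ?_
    exact isClosed_le continuous_const (by fun_prop)
  have hne : ∀ n, (K n).Nonempty := by
    intro n
    obtain ⟨i, hi⟩ := card_pos.1 (J_inv R F hR hF n).1
    refine ⟨(i : ℝ) / (R : ℝ) ^ n, ⟨by positivity, ?_⟩, J_av R F (by omega) hF n i hi⟩
    rw [div_le_one (by positivity)]
    exact_mod_cast (J_lt R F n i hi).le
  obtain ⟨x, hx⟩ := IsCompact.nonempty_iInter_of_sequence_nonempty_isCompact_isClosed K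
    (fun n x hx => ⟨hx.1, fun m hm => hx.2 m (by omega)⟩) hne
    (isCompact_Icc.inter_right (by
      simp only [Av, Set.setOf_forall]
      refine isClosed_iInter fun m => isClosed_iInter fun _ => isClosed_iInter fun n' =>
        isClosed_iInter fun t => isClosed_iInter fun c => isClosed_iInter fun _ => ?_
      exact isClosed_le continuous_const (by fun_prop))) hcl
  refine ⟨x, fun m n t c hc => ?_⟩
  exact (Set.mem_iInter.1 hx m).2 m le_rfl n t c hc

end Cantor

end Pool.Agent.F2CF
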