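import Pool.Agent.F2CF.A

set_option autoImplicit false

namespace Pool.Agent.F2CF

section Calc
variable {ρ : ℝ}

theorem pmono (hρ : 4 ≤ ρ) {a b : ℤ} (h : a ≤ b) : ρ ^ a ≤ ρ ^ b :=
  zpow_le_zpow_right₀ (by linarith) h

theorem plt (hρ : 4 ≤ ρ) {a b : ℤ} (h : a < b) : ρ ^ a < ρ ^ b :=
  zpow_lt_zpow_right₀ (by linarith) h

theorem pcmp (hρ : 4 ≤ ρ) {a b : ℤ} (h : ρ ^ a ≤ ρ ^ b) : a ≤ b := by
  by_contra hc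
  exact absurd (plt hρ (not_le.1 hc)) (not_lt.2 h)

theorem pm (hρ : 4 ≤ ρ) {x y : ℝ} {a b : ℤ} (hx : |x| ≤ ρ ^ a) (hy : |y| ≤ ρ ^ b) :
    |x * y| ≤ ρ ^ (a + b) := by
  rw [abs_mul, zpow_add₀ (by linarith : ρ ≠ 0)]
  exact mul_le_mul hx hy (abs_nonneg _) (zpow_nonneg (by linarith) _)

theorem four (hρ : 4 ≤ ρ) (a : ℤ) : 4 * ρ ^ a ≤ ρ ^ (a + 1) := by
  rw [zpow_add_one₀ (by linarith : ρ ≠ 0)]
  have : 0 < ρ ^ a := zpow_pos (by linarith) _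
  nlinarith

theorem pa (hρ : 4 ≤ ρ) {x y : ℝ} {a b : ℤ} (c : ℤ) (hx : |x| ≤ ρ ^ a) (hy : |y| ≤ ρ ^ b)
    (h1 : a + 1 ≤ c) (h2 : b + 1 ≤ c) : |x + y| ≤ ρ ^ c := by
  have e1 := pmono hρ (show a ≤ c - 1 by omega)
  have e2 := pmono hρ (show b ≤ c - 1 by omega)
  have e3 := four hρ (c - 1)
  rw [sub_add_cancel] at e3
  have e4 : 0 < ρ ^ (c - 1) := zpow_pos (by linarith) _
  have := abs_add_le x y
  linarith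

theorem ps (hρ : 4 ≤ ρ) {x y : ℝ} {a b : ℤ} (c : ℤ) (hx : |x| ≤ ρ ^ a) (hy : |y| ≤ ρ ^ b)
    (h1 : a + 1 ≤ c) (h2 : b + 1 ≤ c) : |x - y| ≤ ρ ^ c := by
  rw [sub_eq_add_neg]; exact pa hρ c hx (by rwa [abs_neg]) h1 h2

theorem pint (hρ : 4 ≤ ρ) {z : ℤ} {a : ℤ} (h : |(z : ℝ)| ≤ ρ ^ a) (ha : a < 0) : z = 0 := by
  have := plt hρ ha
  rw [zpow_zero] at this
  have h1 : |(z : ℝ)| < 1 := by linarith
  have h2 : |z| < 1 := by exact_mod_cast h1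
  exact Int.abs_lt_one_iff.1 h2

theorem pnz (hρ : 4 ≤ ρ) {z : ℤ} {a : ℤ} (h : |(z : ℝ)| ≤ ρ ^ a) (hz : z ≠ 0) : 0 ≤ a := by
  by_contra hc
  exact hz (pint hρ h (not_le.1 hc))

theorem pdiv (hρ : 4 ≤ ρ) {x y : ℝ} {a b : ℤ} (hx : |x| ≤ ρ ^ a) (hy : ρ ^ b ≤ |y|) :
    |x / y| ≤ ρ ^ (a - b) := by
  have hb : 0 < ρ ^ b := zpow_pos (by linarith) _
  rw [abs_div, zpow_sub₀ (by linarith : ρ ≠ 0)]
  exact div_le_div₀ (zpow_nonneg (by linarith) _) hx hb hy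

theorem pex (hρ : 4 ≤ ρ) {x : ℝ} (hx : 1 ≤ x) : ∃ n : ℕ, ρ ^ (n : ℤ) ≤ x ∧ x < ρ ^ ((n : ℤ) + 1) := by
  obtain ⟨n, h1, h2⟩ := exists_nat_pow_near hx (show 1 < ρ by linarith)
  exact ⟨n, by simpa using h1, by exact_mod_cast h2⟩

theorem two (hρ : 4 ≤ ρ) {x : ℝ} {a : ℤ} (h : |x| ≤ 2 * ρ ^ a) : |x| ≤ ρ ^ (a + 1) := by
  have := four hρ a
  have : 0 < ρ ^ a := zpow_pos (by linarith) _
  linarith

theorem one_le_abs {z : ℤ} (hz : z ≠ 0) : (1 : ℝ) ≤ |(z : ℝ)| := by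
  have : 1 ≤ |z| := Int.one_le_abs hz
  exact_mod_cast this

/-- two rational points give a line -/
theorem pts_line (hρ : 4 ≤ ρ) {ζ x : ℝ} {p1 r1 q1 p2 r2 q2 : ℤ} {Q d n : ℤ}
    (h1 : 1 ≤ q1) (h2 : 1 ≤ q2) (hq1 : |(q1 : ℝ)| ≤ ρ ^ Q) (hq2 : |(q2 : ℝ)| ≤ ρ ^ Q)
    (hd1 : |q1 * ζ - r1| ≤ ρ ^ (-d)) (hd2 : |q2 * ζ - r2| ≤ ρ ^ (-d))
    (hx1 : |x - p1 / q1| ≤ 2 * ρ ^ (-n)) (hx2 : |x - p2 / q2| ≤ 2 * ρ ^ (-n))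
    (hne : (p1 : ℝ) / q1 ≠ p2 / q2) :
    ∃ A B C : ℤ, B ≠ 0 ∧ |(A : ℝ)| ≤ ρ ^ (Q - d + 1) ∧ |(B : ℝ)| ≤ ρ ^ (2 * Q + 1 - n) ∧
      |A * x + B * ζ + C| ≤ ρ ^ (Q - d + 3 - n) := by
  have q1p : (0 : ℝ) < q1 := by exact_mod_cast (by omega : 0 < q1)
  have q2p : (0 : ℝ) < q2 := by exact_mod_cast (by omega : 0 < q2)
  have hΔ : |(p2 : ℝ) / q2 - p1 / q1| ≤ ρ ^ (-n + 1) := by
    have := abs_sub_le ((p2 : ℝ) / q2) x (p1 / q1)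
    rw [abs_sub_comm ((p2 : ℝ) / q2) x] at this
    have := four hρ (-n)
    linarith
  have hA : |((r1 * q2 - r2 * q1 : ℤ) : ℝ)| ≤ ρ ^ (Q - d + 1) := by
    have e : ((r1 * q2 - r2 * q1 : ℤ) : ℝ) = q1 * (q2 * ζ - r2) - q2 * (q1 * ζ - r1) := by
      push_cast; ring
    rw [e]
    exact ps hρ _ (pm hρ hq1 hd2) (pm hρ hq2 hd1) (by omega) (by omega)
  refine ⟨r1 * q2 - r2 * q1, q1 * p2 - p1 * q2, p1 * r2 - r1 * p2, ?_, hA, ?_, ?_⟩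
  · intro h
    apply hne
    have : ((q1 * p2 - p1 * q2 : ℤ) : ℝ) = 0 := by exact_mod_cast h
    push_cast at this
    field_simp
    linarith
  · have e : ((q1 * p2 - p1 * q2 : ℤ) : ℝ) = q1 * q2 * ((p2 : ℝ) / q2 - p1 / q1) := by
      push_cast; field_simp
    rw [e]
    exact (pm hρ (pm hρ hq1 hq2) hΔ).trans (pmono hρ (by omega))
  · have e : ((r1 * q2 - r2 * q1 : ℤ) : ℝ) * x + ((q1 * p2 - p1 * q2 : ℤ) : ℝ) * ζ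
        + ((p1 * r2 - r1 * p2 : ℤ) : ℝ) = ((r1 * q2 - r2 * q1 : ℤ) : ℝ) * (x - p1 / q1)
        + q2 * ((p2 : ℝ) / q2 - p1 / q1) * (q1 * ζ - r1) := by
      push_cast; field_simp; ring
    rw [e]
    exact pa hρ _ (pm hρ hA (two hρ hx1)) (pm hρ (pm hρ hq2 hΔ) hd1) (by omega) (by omega)

/-- two lines give a rational point -/
theorem lines_pt (hρ : 4 ≤ ρ) {ζ x : ℝ} {A1 B1 C1 A2 B2 C2 : ℤ} {α β n : ℤ}
    (h1 : A1 ≠ 0) (h2 : A2 ≠ 0) (hA1 : |(A1 : ℝ)| ≤ ρ ^ (α + 1)) (hA2 : |(A2 : ℝ)| ≤ ρ ^ (α + 1))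
    (hB1 : |(B1 : ℝ)| ≤ ρ ^ β) (hB2 : |(B2 : ℝ)| ≤ ρ ^ β)
    (hx1 : |x - -(B1 * ζ + C1) / A1| ≤ 2 * ρ ^ (-n)) (hx2 : |x - -(B2 * ζ + C2) / A2| ≤ 2 * ρ ^ (-n))
    (hneg : 2 * α + 4 - n < 0)
    (hne : -((B1 : ℝ) * ζ + C1) / A1 ≠ -(B2 * ζ + C2) / A2) :
    ∃ p r q : ℤ, 1 ≤ q ∧ |(q : ℝ)| ≤ ρ ^ (α + β + 2) ∧ |q * x - p| ≤ ρ ^ (β + α + 3 - n) ∧
      |q * ζ - r| ≤ ρ ^ (2 * α + 4 - n) := by
  have a1 : (A1 : ℝ) ≠ 0 := by exact_mod_cast h1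
  have a2 : (A2 : ℝ) ≠ 0 := by exact_mod_cast h2
  have L1 : |A1 * x + B1 * ζ + C1| ≤ ρ ^ (α + 1 + (-n + 1)) := by
    have e : A1 * x + B1 * ζ + C1 = A1 * (x - -(B1 * ζ + C1) / A1) := by field_simp; ring
    rw [e]; exact pm hρ hA1 (two hρ hx1)
  have L2 : |A2 * x + B2 * ζ + C2| ≤ ρ ^ (α + 1 + (-n + 1)) := by
    have e : A2 * x + B2 * ζ + C2 = A2 * (x - -(B2 * ζ + C2) / A2) := by field_simp; ring
    rw [e]; exact pm hρ hA2 (two hρ hx2)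
  have hq : |((A1 * B2 - A2 * B1 : ℤ) : ℝ)| ≤ ρ ^ (α + β + 2) := by
    push_cast
    exact ps hρ _ (pm hρ hA1 hB2) (pm hρ hA2 hB1) (by omega) (by omega)
  have hp : |((A1 * B2 - A2 * B1 : ℤ) : ℝ) * x - ((B1 * C2 - B2 * C1 : ℤ) : ℝ)|
      ≤ ρ ^ (β + α + 3 - n) := by
    have e : ((A1 * B2 - A2 * B1 : ℤ) : ℝ) * x - ((B1 * C2 - B2 * C1 : ℤ) : ℝ)
        = B2 * (A1 * x + B1 * ζ + C1) - B1 * (A2 * x + B2 * ζ + C2) := by push_cast; ring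
    rw [e]
    exact ps hρ _ (pm hρ hB2 L1) (pm hρ hB1 L2) (by omega) (by omega)
  have hr : |((A1 * B2 - A2 * B1 : ℤ) : ℝ) * ζ - ((A2 * C1 - A1 * C2 : ℤ) : ℝ)|
      ≤ ρ ^ (2 * α + 4 - n) := by
    have e : ((A1 * B2 - A2 * B1 : ℤ) : ℝ) * ζ - ((A2 * C1 - A1 * C2 : ℤ) : ℝ)
        = A1 * (A2 * x + B2 * ζ + C2) - A2 * (A1 * x + B1 * ζ + C1) := by push_cast; ring
    rw [e]
    exact ps hρ _ (pm hρ hA1 L2) (pm hρ hA2 L1) (by omega) (by omega)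
  rcases lt_trichotomy (A1 * B2 - A2 * B1) 0 with hlt | heq | hgt
  · refine ⟨-(B1 * C2 - B2 * C1), -(A2 * C1 - A1 * C2), -(A1 * B2 - A2 * B1), by omega, ?_, ?_, ?_⟩
    · rw [Int.cast_neg, abs_neg]; exact hq
    · rw [Int.cast_neg, Int.cast_neg, ← abs_neg]; convert hp using 2; ring
    · rw [Int.cast_neg, Int.cast_neg, ← abs_neg]; convert hr using 2; ring
  · exfalso
    rw [heq] at hr
    simp only [Int.cast_zero, zero_mul, zero_sub, abs_neg] at hr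
    have h0 := pint hρ hr hneg
    apply hne
    have e1 : ((A1 * B2 - A2 * B1 : ℤ) : ℝ) = 0 := by exact_mod_cast heq
    have e2 : ((A2 * C1 - A1 * C2 : ℤ) : ℝ) = 0 := by exact_mod_cast h0
    push_cast at e1 e2
    field_simp
    linear_combination ζ * e1 - e2
  · exact ⟨_, _, _, hgt, hq, hp, hr⟩

theorem pt_close (hρ : 4 ≤ ρ) {x : ℝ} {p q : ℤ} {a b : ℤ} (hq : 1 ≤ q) (h : |q * x - p| ≤ ρ ^ a)
    (hb : ρ ^ b ≤ |(q : ℝ)|) : |x - p / q| ≤ ρ ^ (a - b) := by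
  have q1p : (0 : ℝ) < q := by exact_mod_cast (by omega : 0 < q)
  have e : x - p / q = (q * x - p) / q := by field_simp
  rw [e]; exact pdiv hρ h hb

theorem line_close (hρ : 4 ≤ ρ) {x ζ : ℝ} {A B C : ℤ} {a b : ℤ} (hA : A ≠ 0)
    (h : |A * x + B * ζ + C| ≤ ρ ^ a)
    (hb : ρ ^ b ≤ |(A : ℝ)|) : |x - -(B * ζ + C) / A| ≤ ρ ^ (a - b) := by
  have a1 : (A : ℝ) ≠ 0 := by exact_mod_cast hA
  have e : x - -(B * ζ + C) / A = (A * x + B * ζ + C) / A := by field_simp; ring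
  rw [e]; exact pdiv hρ h hb

/-- quantitative badly approximable -/
def Bz (ρ ζ : ℝ) : Prop := ∀ q r : ℤ, q ≠ 0 → ρ ^ (-1 : ℤ) ≤ |(q : ℝ) * (q * ζ - r)|

theorem Bz.line (hρ : 4 ≤ ρ) {ζ x : ℝ} (hζ : Bz ρ ζ) {B C : ℤ} {a b : ℤ} (hB : B ≠ 0)
    (h1 : |(B : ℝ)| ≤ ρ ^ a) (h2 : |((0 : ℤ) : ℝ) * x + B * ζ + C| ≤ ρ ^ b) : -1 ≤ a + b := by
  have h := hζ B (-C) hB
  have e : ((0 : ℤ) : ℝ) * x + B * ζ + C = B * ζ - ((-C : ℤ) : ℝ) := by push_cast; ring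
  rw [e] at h2
  exact pcmp hρ (h.trans (pm hρ h1 h2))

end Calc

/-! ### the one-dimensional system -/

def F0 (ρ : ℝ) (m n : ℕ) (_t : Unit) : Set ℝ :=
  {c | m = n + 1 ∧ ∃ t : ℕ, ∃ p q : ℤ, 1 ≤ q ∧ |(q : ℝ)| ≤ ρ ^ ((t : ℤ) + 1) ∧ m = 2 * t + 5 ∧
    c = p / q}

theorem nice0 {ρ : ℝ} (hρ : 4 ≤ ρ) : Nice ρ (F0 ρ) := by
  constructor
  · rintro m n t c ⟨h, -⟩; omega
  · rintro m n t x c1 c2 - ⟨e1, t1, p1, q1, h1, hq1, m1, rfl⟩ ⟨-, t2, p2, q2, h2, hq2, m2, rfl⟩ d1 d2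
    obtain rfl : t1 = t2 := by omega
    have q1p : (0 : ℝ) < q1 := by exact_mod_cast (by omega : 0 < q1)
    have q2p : (0 : ℝ) < q2 := by exact_mod_cast (by omega : 0 < q2)
    have hΔ : |(p2 : ℝ) / q2 - p1 / q1| ≤ ρ ^ (-(n : ℤ) + 1) := by
      have := abs_sub_le ((p2 : ℝ) / q2) x (p1 / q1)
      rw [abs_sub_comm ((p2 : ℝ) / q2) x] at this
      have := four hρ (-(n : ℤ))
      linarith
    have e : ((q1 * p2 - p1 * q2 : ℤ) : ℝ) = q1 * q2 * ((p2 : ℝ) / q2 - p1 / q1) := by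
      push_cast; field_simp
    have h3 := pm hρ (pm hρ hq1 hq2) hΔ
    rw [← e] at h3
    have h4 := pint hρ h3 (by omega)
    have : ((q1 * p2 - p1 * q2 : ℤ) : ℝ) = 0 := by exact_mod_cast h4
    push_cast at this
    field_simp
    linarith

theorem final0 {ρ x : ℝ} (hρ : 4 ≤ ρ)
    (h : ∀ m n t, ∀ c ∈ F0 ρ m n t, ρ ^ (-(m : ℤ)) ≤ |x - c|) (p q : ℤ) (hq : 1 ≤ q) :
    ρ ^ (-5 : ℤ) ≤ q * |q * x - p| := by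
  have q1 : (1 : ℝ) ≤ q := by exact_mod_cast hq
  obtain ⟨t, h1, h2⟩ := pex hρ q1
  have h3 := h (2 * t + 5) (2 * t + 4) () (p / q) ⟨rfl, t, p, q, hq,
    by rw [abs_of_pos (by linarith)]; exact h2.le, rfl, rfl⟩
  have e : |q * x - p| = q * |x - p / q| := by
    rw [← abs_of_pos (show (0 : ℝ) < q by linarith), ← abs_mul, abs_of_pos (show (0 : ℝ) < q by linarith)]
    congr 1; field_simp
  have hp : 0 < ρ ^ (t : ℤ) := zpow_pos (by linarith) _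
  have hp2 : 0 < ρ ^ (-((2 * t + 5 : ℕ) : ℤ)) := zpow_pos (by linarith) _
  have e2 : ρ ^ (-5 : ℤ) = ρ ^ (t : ℤ) * (ρ ^ (t : ℤ) * ρ ^ (-((2 * t + 5 : ℕ) : ℤ))) := by
    rw [← zpow_add₀ (by linarith : ρ ≠ 0), ← zpow_add₀ (by linarith : ρ ≠ 0)]
    congr 1; push_cast; ring
  rw [e, e2]
  gcongr

end Pool.Agent.F2CF
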